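import Pool.Agent.H25.TRI.TRS

/-! REG part C: the two forms of the heat extension agree for positive times; the embedding for `heat`
from the embedding for `U`. -/

namespace Pool.Agent.H25.TRI

open MeasureTheory Metric Set Filter Topology Pool.Agent.H87.SN
open scoped ContDiff RealInnerProductSpace ENNReal

noncomputable section

open Pool.Agent.H31.TRI (heat TF)

theorem U_eq_heat {n : ℕ} (f : E n → ℝ) {s : ℝ} (hs : 0 < s) (x : E n) : U f s x = heat f s x := by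
  have hr : 0 < Real.sqrt s := Real.sqrt_pos.2 hs
  have h := Measure.integral_comp_smul (volume : Measure (E n))
    (fun w : E n => Pool.Agent.H31.TRI.K s w * f (x - w)) (Real.sqrt s)
  have hfr : Module.finrank ℝ (E n) = n := by simp [E]
  rw [hfr] at h
  have hpt : ∀ z : E n, Pool.Agent.H31.TRI.K s (Real.sqrt s • z) * f (x - Real.sqrt s • z) =
      ((Real.sqrt s) ^ n)⁻¹ * (gam z * f (x - Real.sqrt s • z)) := by
    intro z
    have h1 : Pool.Agent.H31.TRI.K s (Real.sqrt s • z) = ((Real.sqrt s) ^ n)⁻¹ * gam z := by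
      unfold Pool.Agent.H31.TRI.K gam
      have e1 : ‖Real.sqrt s • z‖ ^ 2 / (4 * s) = ‖z‖ ^ 2 / 4 := by
        rw [norm_smul, mul_pow, Real.norm_eq_abs, sq_abs, Real.sq_sqrt hs.le]
        field_simp
      have e2 : -(‖Real.sqrt s • z‖ ^ 2 / (4 * s)) = -(‖z‖ ^ 2) / 4 := by rw [e1]; ring
      have e3 : (4 * Real.pi * s) ^ (-(n : ℝ) / 2) =
          (4 * Real.pi) ^ (-(n : ℝ) / 2) * ((Real.sqrt s) ^ n)⁻¹ := by
        rw [Real.mul_rpow (by positivity) hs.le]
        congr 1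
        rw [Real.sqrt_eq_rpow, ← Real.rpow_natCast, ← Real.rpow_mul hs.le, ← Real.rpow_neg hs.le]
        congr 1
        ring
      rw [e2, e3]
      ring
    rw [h1]
    ring
  have hL : (∫ z : E n, Pool.Agent.H31.TRI.K s (Real.sqrt s • z) * f (x - Real.sqrt s • z)) =
      ((Real.sqrt s) ^ n)⁻¹ * U f s x := by
    unfold U
    rw [← integral_const_mul]
    exact integral_congr_ae (Eventually.of_forall hpt)
  have hR : |((Real.sqrt s) ^ n)⁻¹| = ((Real.sqrt s) ^ n)⁻¹ := abs_of_pos (by positivity)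
  rw [hR, smul_eq_mul] at h
  have h2 : ((Real.sqrt s) ^ n)⁻¹ * U f s x = ((Real.sqrt s) ^ n)⁻¹ * heat f s x := by
    rw [← hL]
    exact h
  exact mul_left_cancel₀ (by positivity) h2

/-- CMG (helper6): the embedding for the heat extension `U`. -/
def T_CMG : Prop := ∀ n : ℕ, 1 ≤ n → ∃ C : ℝ≥0∞, C ≠ ⊤ ∧ ∀ (b w : E n → ℝ) (M : ℝ), Cc b → Cc w →
  0 ≤ M → (∀ i, Mor (pd i b) M) → ∀ i : Fin n,
    (∫⁻ s in Ioi (0 : ℝ), ∫⁻ x, (‖U (pd i b) s x‖ₑ * ‖U w s x‖ₑ) ^ 2) ≤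
      C * ENNReal.ofReal (M ^ 2) * ∫⁻ x, ‖w x‖ₑ ^ 2

theorem pf_EMB (hcont : Pool.Agent.H31.TRI.T_CONT) (hc : T_CMG) : T_EMB := by
  intro n hn
  obtain ⟨C, hC, hE⟩ := hc n hn
  refine ⟨C.toReal, ENNReal.toReal_nonneg, ?_⟩
  intro b g M hb hg hM hMor i
  have hvol : (volume : Measure (ℝ × E n)).restrict (Ioi (0 : ℝ) ×ˢ (univ : Set (E n))) =
      (volume.restrict (Ioi (0 : ℝ))).prod (volume : Measure (E n)) := by
    rw [Measure.volume_eq_prod, ← Measure.prod_restrict, Measure.restrict_univ]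
  have hms : ∀ f : E n → ℝ, Cc f → AEStronglyMeasurable (fun p : ℝ × E n => heat f p.1 p.2)
      ((volume : Measure (ℝ × E n)).restrict (Ioi (0 : ℝ) ×ˢ (univ : Set (E n)))) := by
    intro f hf
    exact (hcont n f hf).aestronglyMeasurable (measurableSet_Ioi.prod MeasurableSet.univ)
  have hm : AEStronglyMeasurable (fun p : ℝ × E n => (heat (pd i b) p.1 p.2 * heat g p.1 p.2) ^ 2)
      ((volume : Measure (ℝ × E n)).restrict (Ioi (0 : ℝ) ×ˢ (univ : Set (E n)))) :=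
    ((hms _ (hb.pd i)).mul (hms _ hg)).pow 2
  have hg2 : Integrable (fun x => g x ^ 2) := by
    have h : Integrable (fun x => g x * g x) := (hg.mul hg).integrable
    simpa [pow_two] using h
  have hw : (∫⁻ x, ‖g x‖ₑ ^ 2) = ENNReal.ofReal (∫ x, g x ^ 2) := by
    rw [ofReal_integral_eq_lintegral_ofReal hg2 (Eventually.of_forall fun x => sq_nonneg _)]
    refine lintegral_congr fun x => ?_
    rw [← sq_abs, ENNReal.ofReal_pow (abs_nonneg _), Real.enorm_eq_ofReal_abs]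
  have hle : (∫⁻ p, ‖(heat (pd i b) p.1 p.2 * heat g p.1 p.2) ^ 2‖ₑ
      ∂((volume : Measure (ℝ × E n)).restrict (Ioi (0 : ℝ) ×ˢ (univ : Set (E n))))) ≤
      C * ENNReal.ofReal (M ^ 2) * ENNReal.ofReal (∫ x, g x ^ 2) := by
    rw [← hw]
    refine le_trans (le_of_eq ?_) (hE b g M hb hg hM hMor i)
    rw [hvol] at hm ⊢
    rw [lintegral_prod _ hm.enorm]
    refine setLIntegral_congr_fun measurableSet_Ioi fun s hs => ?_
    refine lintegral_congr fun x => ?_
    rw [U_eq_heat _ hs, U_eq_heat _ hs, ← enorm_mul, enorm_pow]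
  have hfin : C * ENNReal.ofReal (M ^ 2) * ENNReal.ofReal (∫ x, g x ^ 2) ≠ ⊤ :=
    ENNReal.mul_ne_top (ENNReal.mul_ne_top hC ENNReal.ofReal_ne_top) ENNReal.ofReal_ne_top
  refine ⟨⟨hm, lt_of_le_of_lt hle (lt_top_iff_ne_top.2 hfin)⟩, ?_⟩
  rw [integral_eq_lintegral_of_nonneg_ae (Eventually.of_forall fun p => sq_nonneg _) hm]
  have hle2 : (∫⁻ p, ENNReal.ofReal ((heat (pd i b) p.1 p.2 * heat g p.1 p.2) ^ 2)
      ∂((volume : Measure (ℝ × E n)).restrict (Ioi (0 : ℝ) ×ˢ (univ : Set (E n))))) ≤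
      C * ENNReal.ofReal (M ^ 2) * ENNReal.ofReal (∫ x, g x ^ 2) := by
    refine le_trans (le_of_eq (lintegral_congr fun p => ?_)) hle
    rw [Real.enorm_eq_ofReal_abs, abs_of_nonneg (sq_nonneg _)]
  refine (ENNReal.toReal_mono hfin hle2).trans (le_of_eq ?_)
  rw [ENNReal.toReal_mul, ENNReal.toReal_mul, ENNReal.toReal_ofReal (sq_nonneg _),
    ENNReal.toReal_ofReal (integral_nonneg fun x => sq_nonneg _)]

end

end Pool.Agent.H25.TRI
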