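import Pool.Agent.H87.SN.Defs
import Pool.Agent.H68.RG.HL

/-! Part C of the regularity theorem (MP_2697e3_an): the trilinear estimate of
Coifman, Lions, Meyer and Semmes in Morrey form. Definitions. -/

namespace Pool.Agent.H25.TRI

open MeasureTheory Metric Set Filter Topology Pool.Agent.H87.SN
open scoped ContDiff RealInnerProductSpace ENNReal

noncomputable section

/-- Smooth functions with compact support. -/
def Cc {n : ℕ} (f : E n → ℝ) : Prop := ContDiff ℝ ∞ f ∧ HasCompactSupport f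

/-- The partial derivative. -/
def pd {n : ℕ} (i : Fin n) (f : E n → ℝ) (x : E n) : ℝ := fderiv ℝ f x (bv i)

/-- The Laplacian. -/
def lap {n : ℕ} (f : E n → ℝ) (x : E n) : ℝ := ∑ i : Fin n, pd i (pd i f) x

/-- The Gaussian density with variance two in each direction. -/
def gam {n : ℕ} (z : E n) : ℝ := (4 * Real.pi) ^ (-(n : ℝ) / 2) * Real.exp (-(‖z‖ ^ 2) / 4)

/-- The heat extension of `f`: Gaussian mean at scale `√s` (`U f s = f` for `s ≤ 0`). -/
def U {n : ℕ} (f : E n → ℝ) (s : ℝ) (x : E n) : ℝ :=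
  ∫ z : E n, gam z * f (x - Real.sqrt s • z)

/-- Morrey bound: `∫_{B_r(y)} |f| ≤ M r^{n-1}` for all balls. -/
def Mor {n : ℕ} (f : E n → ℝ) (M : ℝ) : Prop :=
  ∀ (y : E n) (r : ℝ), 0 < r → ∫⁻ x in ball y r, ‖f x‖ₑ ≤ ENNReal.ofReal (M * r ^ (n - 1))

/-- The nontangential maximal function (parabolic cones `|y - x|^2 < s`). -/
def NT {n : ℕ} (F : E n × ℝ → ℝ≥0∞) (x : E n) : ℝ≥0∞ :=
  ⨆ p : E n × ℝ, ⨆ _ : 0 < p.2, ⨆ _ : ‖p.1 - x‖ ^ 2 < p.2, F p

/-- The functions `D i` are the weak partial derivatives of `f` on the whole space. -/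
def WG {n : ℕ} (f : E n → ℝ) (D : Fin n → E n → ℝ) : Prop :=
  ∀ φ : E n → ℝ, Cc φ → ∀ i : Fin n, ∫ x, f x * pd i φ x = - ∫ x, D i x * φ x

theorem Cc.continuous {n : ℕ} {f : E n → ℝ} (hf : Cc f) : Continuous f := hf.1.continuous

theorem Cc.integrable {n : ℕ} {f : E n → ℝ} (hf : Cc f) : Integrable f :=
  hf.continuous.integrable_of_hasCompactSupport hf.2

theorem Cc.bdd {n : ℕ} {f : E n → ℝ} (hf : Cc f) : ∃ C : ℝ, ∀ x, |f x| ≤ C := by
  obtain ⟨C, hC⟩ := hf.2.exists_bound_of_continuous hf.continuous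
  exact ⟨C, fun x => by simpa [Real.norm_eq_abs] using hC x⟩

theorem Cc.pd {n : ℕ} {f : E n → ℝ} (hf : Cc f) (i : Fin n) : Cc (pd i f) := by
  refine ⟨?_, ?_⟩
  · have h := hf.1.fderiv_right (m := ∞) (by exact le_rfl)
    exact h.clm_apply contDiff_const
  · have h := hf.2.fderiv (𝕜 := ℝ)
    refine h.mono ?_
    intro x hx hx0
    apply hx
    simp only [TRI.pd]
    rw [show fderiv ℝ f x = 0 from by simpa using hx0]
    simp

theorem Cc.lap {n : ℕ} {f : E n → ℝ} (hf : Cc f) : Cc (lap f) := by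
  refine ⟨?_, ?_⟩
  · unfold TRI.lap
    exact ContDiff.sum fun i _ => ((hf.pd i).pd i).1
  · unfold TRI.lap
    rw [hasCompactSupport_def]
    have hs : Function.support (fun x => ∑ i : Fin n, TRI.pd i (TRI.pd i f) x) ⊆
        ⋃ i : Fin n, tsupport (TRI.pd i (TRI.pd i f)) := by
      intro x hx
      by_contra hcon
      apply hx
      simp only [mem_iUnion, not_exists] at hcon
      exact Finset.sum_eq_zero fun i _ => image_eq_zero_of_notMem_tsupport (hcon i)
    have hc : IsCompact (⋃ i : Fin n, tsupport (TRI.pd i (TRI.pd i f))) :=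
      isCompact_iUnion fun i => ((hf.pd i).pd i).2
    exact hc.of_isClosed_subset isClosed_closure (closure_minimal hs hc.isClosed)

theorem Cc.mul {n : ℕ} {f g : E n → ℝ} (hf : Cc f) (hg : Cc g) : Cc (fun x => f x * g x) :=
  ⟨hf.1.mul hg.1, hf.2.mul_right⟩

end

end Pool.Agent.H25.TRI
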