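import Pool.Agent.H25.TRI.BRI
import Pool.Agent.H19.TRI.DYA
import Pool.Agent.H29.TRI.MOS
import Pool.Agent.H31.TRI.ENE
import Pool.Agent.H31.TRI.HID2
import Pool.Agent.H34.TRI.MOA
import Pool.Agent.H35.TRI.UHE
import Pool.Agent.H38.TRI.K2C
import Pool.Agent.H38.TRI.MOB
import Pool.Agent.H38.TRI.UBA
import Pool.Agent.H4.TRI.TRI
import Pool.Agent.H51.TRI.LIM
import Pool.Agent.H63.TRI.UPD
import Pool.Agent.H68.RG.K2A
import Pool.Agent.H69.TRI.CNV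
import Pool.Agent.H69.TRI.MOW
import Pool.Agent.H79.TRI.MOM
import Pool.Agent.H6.RG.CMG
import Pool.Agent.H60.TRI.GAU
import Pool.Agent.H8.TRI.ML2
import Pool.Agent.H84.TRI.MOD
import Pool.Agent.H89.TRI.ULP
import Pool.Agent.H95.TRI.C_MOL

/-! REG part C: assembly of the trilinear estimate, and the unconditional output. -/

namespace Pool.Agent.H25.TRI

open MeasureTheory Metric Set Filter Topology Pool.Agent.H87.SN
open scoped ContDiff RealInnerProductSpace ENNReal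

noncomputable section

/-- the trilinear estimate from the embedding -/
theorem T_TRI_of (hCMG : T_CMG) : Pool.Agent.H48.RG.T_TRI :=
  Pool.Agent.H69.TRI.pf_CNV <| Pool.Agent.H4.TRI.pf_TRI
    (pf_TRS Pool.Agent.H38.TRI.pf_CONT
      (Pool.Agent.H31.TRI.pf_ENE Pool.Agent.H38.TRI.pf_CONT Pool.Agent.H68.RG.pf_SUP
        Pool.Agent.H38.TRI.pf_L12)
      (Pool.Agent.H31.TRI.pf_HID Pool.Agent.H38.TRI.pf_CONT Pool.Agent.H68.RG.pf_SUP
        Pool.Agent.H38.TRI.pf_L12 Pool.Agent.H38.TRI.pf_ZER Pool.Agent.H68.RG.pf_DEC1)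
      (pf_EMB Pool.Agent.H38.TRI.pf_CONT hCMG))
    Pool.Agent.H95.TRI.pf_MOL Pool.Agent.H29.TRI.pf_MOS Pool.Agent.H8.TRI.pf_ML2
    Pool.Agent.H69.TRI.pf_MOW Pool.Agent.H84.TRI.pf_MOD Pool.Agent.H79.TRI.pf_MOM
    Pool.Agent.H51.TRI.pf_LIM

/-- the embedding -/
theorem out_CMG : T_CMG :=
  Pool.Agent.H6.RG.pf_CMG Pool.Agent.H60.TRI.pf_GAU
    (Pool.Agent.H38.TRI.pf_UBA Pool.Agent.H60.TRI.pf_GAU)
    (Pool.Agent.H63.TRI.pf_UPD Pool.Agent.H60.TRI.pf_GAU)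
    (Pool.Agent.H35.TRI.pf_UHE Pool.Agent.H60.TRI.pf_GAU
      (Pool.Agent.H63.TRI.pf_UPD Pool.Agent.H60.TRI.pf_GAU))
    (Pool.Agent.H89.TRI.pf_ULP Pool.Agent.H60.TRI.pf_GAU)
    (Pool.Agent.H34.TRI.pf_MOA (Pool.Agent.H19.TRI.pf_DYA Pool.Agent.H60.TRI.pf_GAU))
    (Pool.Agent.H38.TRI.pf_MOB Pool.Agent.H60.TRI.pf_GAU)

/-- OUTPUT of part C: the trilinear estimate, without hypotheses -/
theorem out_TRI : Pool.Agent.H48.RG.T_TRI := T_TRI_of out_CMG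

end

end Pool.Agent.H25.TRI
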