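import Pool.Agent.H25.TRI.Targets
import Pool.Agent.H31.TRI.Defs

/-! REG part C: the trilinear estimate for smooth functions, from the heat identity, the energy
estimate and the embedding. -/

namespace Pool.Agent.H25.TRI

open MeasureTheory Metric Set Filter Topology Pool.Agent.H87.SN
open scoped ContDiff RealInnerProductSpace ENNReal

noncomputable section

open Pool.Agent.H31.TRI (heat TF)

/-- The embedding, in the form used here. -/
def T_EMB : Prop := ∀ n : ℕ, 1 ≤ n → ∃ C : ℝ, 0 ≤ C ∧ ∀ (b g : E n → ℝ) (M : ℝ), Cc b → Cc g → 0 ≤ M →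
  (∀ i, Mor (pd i b) M) → ∀ i : Fin n,
    IntegrableOn (fun p : ℝ × E n => (heat (pd i b) p.1 p.2 * heat g p.1 p.2) ^ 2) (Ioi 0 ×ˢ univ) ∧
    (∫ p in Ioi (0 : ℝ) ×ˢ (univ : Set (E n)), (heat (pd i b) p.1 p.2 * heat g p.1 p.2) ^ 2) ≤
      C * M ^ 2 * ∫ x, g x ^ 2

theorem pd_eq {n : ℕ} (i : Fin n) (f : E n → ℝ) : Pool.Agent.H31.TRI.pd i f = pd i f := rfl

theorem cs {α : Type*} [MeasurableSpace α] {μ : Measure α} {f g : α → ℝ}
    (hf : AEStronglyMeasurable f μ) (hg : AEStronglyMeasurable g μ)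
    (hf2 : Integrable (fun x => f x ^ 2) μ) (hg2 : Integrable (fun x => g x ^ 2) μ) :
    Integrable (fun x => f x * g x) μ ∧
      |∫ x, f x * g x ∂μ| ≤ Real.sqrt (∫ x, f x ^ 2 ∂μ) * Real.sqrt (∫ x, g x ^ 2 ∂μ) := by
  have h1 := (memLp_two_iff_integrable_sq hf).2 hf2
  have h2 := (memLp_two_iff_integrable_sq hg).2 hg2
  have h3 : Integrable (fun x => f x * g x) μ := h1.integrable_mul h2
  refine ⟨h3, ?_⟩
  have hpq : Real.HolderConjugate 2 2 := by
    rw [Real.holderConjugate_iff]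
    norm_num
  have e2 : ENNReal.ofReal 2 = 2 := by simp
  have h4 := integral_mul_norm_le_Lp_mul_Lq hpq (by rw [e2]; exact h1) (by rw [e2]; exact h2)
  have h5 : |∫ x, f x * g x ∂μ| ≤ ∫ x, ‖f x‖ * ‖g x‖ ∂μ := by
    refine (abs_integral_le_integral_abs).trans (le_of_eq ?_)
    refine integral_congr_ae (Eventually.of_forall fun x => ?_)
    simp [abs_mul, Real.norm_eq_abs]
  refine h5.trans (h4.trans (le_of_eq ?_))
  simp only [Real.sqrt_eq_rpow, Real.norm_eq_abs, Real.rpow_two, sq_abs]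

theorem pf_TRS (hcont : Pool.Agent.H31.TRI.T_CONT) (hene : Pool.Agent.H31.TRI.T_ENE)
    (hhid : Pool.Agent.H31.TRI.T_HID) (hemb : T_EMB) : T_TRS := by
  intro n hn
  obtain ⟨C, hC, hE⟩ := hemb n hn
  refine ⟨6 * n ^ 2 * Real.sqrt C, by positivity, ?_⟩
  intro b g G M hb hg hG hdiv hM hMor
  set μ : Measure (ℝ × E n) := (volume : Measure (ℝ × E n)).restrict (Ioi (0 : ℝ) ×ˢ univ) with hμ
  have hms : ∀ f : E n → ℝ, Cc f → AEStronglyMeasurable (fun p : ℝ × E n => heat f p.1 p.2) μ := by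
    intro f hf
    exact (hcont n f hf).aestronglyMeasurable (measurableSet_Ioi.prod MeasurableSet.univ)
  set SG : ℝ := ∑ i, Real.sqrt (∫ x, G i x ^ 2) with hSG
  set Sg : ℝ := ∑ i, Real.sqrt (∫ x, pd i g x ^ 2) with hSg
  have hSG0 : 0 ≤ SG := Finset.sum_nonneg fun i _ => Real.sqrt_nonneg _
  have hSg0 : 0 ≤ Sg := Finset.sum_nonneg fun i _ => Real.sqrt_nonneg _
  have hGle : ∀ j, Real.sqrt (∫ x, G j x ^ 2) ≤ SG := fun j =>
    Finset.single_le_sum (f := fun i => Real.sqrt (∫ x, G i x ^ 2)) (fun i _ => Real.sqrt_nonneg _)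
      (Finset.mem_univ j)
  have hgle : ∀ j, Real.sqrt (∫ x, pd j g x ^ 2) ≤ Sg := fun j =>
    Finset.single_le_sum (f := fun i => Real.sqrt (∫ x, pd i g x ^ 2)) (fun i _ => Real.sqrt_nonneg _)
      (Finset.mem_univ j)
  -- the energy estimate for one derivative
  have hen : ∀ f : E n → ℝ, Cc f → ∀ i : Fin n,
      Integrable (fun p : ℝ × E n => heat (pd i f) p.1 p.2 ^ 2) μ ∧
      (∫ p, heat (pd i f) p.1 p.2 ^ 2 ∂μ) ≤ ∫ x, f x ^ 2 := by
    intro f hf i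
    obtain ⟨h1, h2⟩ := hene n f hf
    have h1' : Integrable (fun p : ℝ × E n => ∑ j, heat (pd j f) p.1 p.2 ^ 2) μ := h1
    have hle : ∀ p : ℝ × E n, heat (pd i f) p.1 p.2 ^ 2 ≤ ∑ j, heat (pd j f) p.1 p.2 ^ 2 := fun p =>
      Finset.single_le_sum (f := fun j => heat (pd j f) p.1 p.2 ^ 2) (fun j _ => sq_nonneg _)
        (Finset.mem_univ i)
    have h3 : Integrable (fun p : ℝ × E n => heat (pd i f) p.1 p.2 ^ 2) μ := by
      refine h1'.mono' ((hms _ (hf.pd i)).pow 2) (Eventually.of_forall fun p => ?_)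
      rw [Real.norm_eq_abs, abs_of_nonneg (sq_nonneg _)]
      exact hle p
    refine ⟨h3, ?_⟩
    have h4 : (∫ p, heat (pd i f) p.1 p.2 ^ 2 ∂μ) ≤ (∫ x, f x ^ 2) / 2 :=
      (integral_mono h3 h1' hle).trans h2
    have h5 : 0 ≤ ∫ x, f x ^ 2 := integral_nonneg fun x => sq_nonneg _
    linarith
  -- one trilinear term
  have hterm : ∀ (f v : E n → ℝ) (i j : Fin n), Cc f → Cc v →
      Integrable (fun p : ℝ × E n => (heat (pd i b) p.1 p.2 * heat f p.1 p.2) * heat (pd j v) p.1 p.2) μ ∧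
      |∫ p, (heat (pd i b) p.1 p.2 * heat f p.1 p.2) * heat (pd j v) p.1 p.2 ∂μ| ≤
        Real.sqrt C * M * (Real.sqrt (∫ x, f x ^ 2) * Real.sqrt (∫ x, v x ^ 2)) := by
    intro f v i j hf hv
    obtain ⟨h1, h2⟩ := hE b f M hb hf hM hMor i
    have h1' : Integrable (fun p : ℝ × E n => (heat (pd i b) p.1 p.2 * heat f p.1 p.2) ^ 2) μ := h1
    obtain ⟨h3, h4⟩ := hen v hv j
    obtain ⟨h5, h6⟩ := cs ((hms _ (hb.pd i)).mul (hms _ hf)) (hms _ (hv.pd j)) h1' h3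
    refine ⟨h5, h6.trans ?_⟩
    have h7 : Real.sqrt (∫ p, (heat (pd i b) p.1 p.2 * heat f p.1 p.2) ^ 2 ∂μ) ≤
        Real.sqrt C * M * Real.sqrt (∫ x, f x ^ 2) := by
      refine (Real.sqrt_le_sqrt h2).trans (le_of_eq ?_)
      rw [Real.sqrt_mul (by positivity), Real.sqrt_mul hC, Real.sqrt_sq hM]
    have h8 : Real.sqrt (∫ p, heat (pd j v) p.1 p.2 ^ 2 ∂μ) ≤ Real.sqrt (∫ x, v x ^ 2) :=
      Real.sqrt_le_sqrt h4
    calc Real.sqrt (∫ p, (heat (pd i b) p.1 p.2 * heat f p.1 p.2) ^ 2 ∂μ) *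
          Real.sqrt (∫ p, heat (pd j v) p.1 p.2 ^ 2 ∂μ)
        ≤ (Real.sqrt C * M * Real.sqrt (∫ x, f x ^ 2)) * Real.sqrt (∫ x, v x ^ 2) :=
          mul_le_mul h7 h8 (Real.sqrt_nonneg _) (by positivity)
      _ = _ := by ring
  set F : Fin n → Fin n → ℝ × E n → ℝ := fun i j p =>
    heat (pd i b) p.1 p.2 * heat (pd i (G j)) p.1 p.2 * heat (pd j g) p.1 p.2
      + heat (pd i b) p.1 p.2 * heat (G j) p.1 p.2 * heat (pd j (pd i g)) p.1 p.2
      - heat (pd j b) p.1 p.2 * heat (pd i (G j)) p.1 p.2 * heat (pd i g) p.1 p.2 with hF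
  have hFij : ∀ i j, Integrable (F i j) μ ∧
      |∫ p, F i j p ∂μ| ≤ 3 * (Real.sqrt C * M * (SG * Sg)) := by
    intro i j
    obtain ⟨a1, a2⟩ := hterm (pd j g) (G j) i i (hg.pd j) (hG j)
    obtain ⟨b1, b2⟩ := hterm (G j) (pd i g) i j (hG j) (hg.pd i)
    obtain ⟨c1, c2⟩ := hterm (pd i g) (G j) j i (hg.pd i) (hG j)
    have key : F i j = fun p : ℝ × E n =>
        ((heat (pd i b) p.1 p.2 * heat (pd j g) p.1 p.2) * heat (pd i (G j)) p.1 p.2
        + (heat (pd i b) p.1 p.2 * heat (G j) p.1 p.2) * heat (pd j (pd i g)) p.1 p.2)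
        - (heat (pd j b) p.1 p.2 * heat (pd i g) p.1 p.2) * heat (pd i (G j)) p.1 p.2 := by
      funext p
      simp only [hF]
      ring
    have s0 : 0 ≤ Real.sqrt C * M := by positivity
    have m1 : Real.sqrt C * M * (Real.sqrt (∫ x, pd j g x ^ 2) * Real.sqrt (∫ x, G j x ^ 2)) ≤
        Real.sqrt C * M * (SG * Sg) := by
      refine mul_le_mul_of_nonneg_left ?_ s0
      rw [mul_comm SG Sg]
      exact mul_le_mul (hgle j) (hGle j) (Real.sqrt_nonneg _) hSg0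
    have m2 : Real.sqrt C * M * (Real.sqrt (∫ x, G j x ^ 2) * Real.sqrt (∫ x, pd i g x ^ 2)) ≤
        Real.sqrt C * M * (SG * Sg) := by
      refine mul_le_mul_of_nonneg_left ?_ s0
      exact mul_le_mul (hGle j) (hgle i) (Real.sqrt_nonneg _) hSG0
    have m3 : Real.sqrt C * M * (Real.sqrt (∫ x, pd i g x ^ 2) * Real.sqrt (∫ x, G j x ^ 2)) ≤
        Real.sqrt C * M * (SG * Sg) := by
      refine mul_le_mul_of_nonneg_left ?_ s0
      rw [mul_comm SG Sg]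
      exact mul_le_mul (hgle i) (hGle j) (Real.sqrt_nonneg _) hSg0
    refine ⟨?_, ?_⟩
    · rw [key]
      exact (a1.add b1).sub c1
    · have hs : ∫ p, F i j p ∂μ =
          ((∫ p, (heat (pd i b) p.1 p.2 * heat (pd j g) p.1 p.2) * heat (pd i (G j)) p.1 p.2 ∂μ)
          + ∫ p, (heat (pd i b) p.1 p.2 * heat (G j) p.1 p.2) * heat (pd j (pd i g)) p.1 p.2 ∂μ)
          - ∫ p, (heat (pd j b) p.1 p.2 * heat (pd i g) p.1 p.2) * heat (pd i (G j)) p.1 p.2 ∂μ := by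
        rw [key, ← integral_add a1 b1]
        exact integral_sub (a1.add b1) c1
      rw [hs]
      have t1 := abs_sub
        ((∫ p, (heat (pd i b) p.1 p.2 * heat (pd j g) p.1 p.2) * heat (pd i (G j)) p.1 p.2 ∂μ)
          + ∫ p, (heat (pd i b) p.1 p.2 * heat (G j) p.1 p.2) * heat (pd j (pd i g)) p.1 p.2 ∂μ)
        (∫ p, (heat (pd j b) p.1 p.2 * heat (pd i g) p.1 p.2) * heat (pd i (G j)) p.1 p.2 ∂μ)
      have t2 := abs_add_le
        (∫ p, (heat (pd i b) p.1 p.2 * heat (pd j g) p.1 p.2) * heat (pd i (G j)) p.1 p.2 ∂μ)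
        (∫ p, (heat (pd i b) p.1 p.2 * heat (G j) p.1 p.2) * heat (pd j (pd i g)) p.1 p.2 ∂μ)
      linarith
  have hint : Integrable (fun p : ℝ × E n => ∑ i, ∑ j, F i j p) μ :=
    integrable_finsetSum _ fun i _ => integrable_finsetSum _ fun j _ => (hFij i j).1
  have hid := hhid n b g G hb hg hG hdiv hint
  have hid' : (∫ x, b x * ∑ j, G j x * pd j g x) = 2 * ∫ p, ∑ i, ∑ j, F i j p ∂μ := hid
  rw [hid']
  have hsum : ∫ p, ∑ i, ∑ j, F i j p ∂μ = ∑ i, ∑ j, ∫ p, F i j p ∂μ := by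
    rw [integral_finsetSum _ fun i _ => integrable_finsetSum _ fun j _ => (hFij i j).1]
    refine Finset.sum_congr rfl fun i _ => ?_
    rw [integral_finsetSum _ fun j _ => (hFij i j).1]
  rw [hsum, abs_mul, abs_of_pos (by norm_num : (0 : ℝ) < 2)]
  have hbound : |∑ i, ∑ j, ∫ p, F i j p ∂μ| ≤
      ∑ i : Fin n, ∑ j : Fin n, 3 * (Real.sqrt C * M * (SG * Sg)) := by
    refine (Finset.abs_sum_le_sum_abs _ _).trans (Finset.sum_le_sum fun i _ => ?_)
    exact (Finset.abs_sum_le_sum_abs _ _).trans (Finset.sum_le_sum fun j _ => (hFij i j).2)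
  have hcard : (∑ i : Fin n, ∑ j : Fin n, 3 * (Real.sqrt C * M * (SG * Sg))) =
      3 * (n : ℝ) ^ 2 * (Real.sqrt C * M * (SG * Sg)) := by
    simp only [Finset.sum_const, Finset.card_univ, Fintype.card_fin, nsmul_eq_mul]
    ring
  rw [hcard] at hbound
  calc 2 * |∑ i, ∑ j, ∫ p, F i j p ∂μ| ≤ 2 * (3 * (n : ℝ) ^ 2 * (Real.sqrt C * M * (SG * Sg))) := by
        linarith
    _ = 6 * n ^ 2 * Real.sqrt C * M * SG * Sg := by ring

end

end Pool.Agent.H25.TRI
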