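import Pool.Agent.H25.TRI.Defs

/-! Part C of the regularity theorem (MP_2697e3_an): targets. Every `T_X` is the statement of the row `X`. -/

namespace Pool.Agent.H25.TRI

open MeasureTheory Metric Set Filter Topology Pool.Agent.H87.SN
open scoped ContDiff RealInnerProductSpace ENNReal

noncomputable section

/-- GAU: the Gaussian is a positive smooth probability density with all moments. -/
def T_GAU : Prop := ∀ n : ℕ, (∀ z : E n, 0 < gam z) ∧ (∫ z : E n, gam z) = 1 ∧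
  (∀ k : ℕ, Integrable (fun z : E n => ‖z‖ ^ k * gam z)) ∧ ContDiff ℝ ∞ (gam : E n → ℝ) ∧
  ∀ (i : Fin n) (z : E n), pd i gam z = -(z i) / 2 * gam z

/-- UBA: continuity and boundedness of the heat extension. -/
def T_UBA : Prop := ∀ (n : ℕ) (f : E n → ℝ), Continuous f → (∃ C, ∀ x, |f x| ≤ C) →
  Continuous (fun p : ℝ × E n => U f p.1 p.2) ∧ (∀ x, U f 0 x = f x) ∧
  ∀ C : ℝ, (∀ x, |f x| ≤ C) → ∀ s x, |U f s x| ≤ C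

/-- ULI: finite sums, products with constants. -/
def T_ULI : Prop := ∀ (n : ℕ) (ι : Type) (I : Finset ι) (f : ι → E n → ℝ), (∀ i ∈ I, Cc (f i)) →
  ∀ (s : ℝ) (x : E n), U (fun y => ∑ i ∈ I, f i y) s x = ∑ i ∈ I, U (f i) s x

/-- UPD: the heat extension is smooth and commutes with partial derivatives. -/
def T_UPD : Prop := ∀ (n : ℕ) (f : E n → ℝ), Cc f → ∀ s : ℝ,
  ContDiff ℝ ∞ (U f s) ∧ ∀ (i : Fin n) (x : E n), pd i (U f s) x = U (pd i f) s x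

/-- UHE: the heat equation. -/
def T_UHE : Prop := ∀ (n : ℕ) (f : E n → ℝ), Cc f → ∀ s : ℝ, 0 < s → ∀ x : E n,
  HasDerivAt (fun t => U f t x) (U (lap f) s x) s

/-- ULP: `L^1` and `L^2` bounds. -/
def T_ULP : Prop := ∀ (n : ℕ) (f : E n → ℝ), Cc f → ∀ s : ℝ,
  (∫⁻ x, ‖U f s x‖ₑ) ≤ ∫⁻ x, ‖f x‖ₑ ∧ (∫⁻ x, ‖U f s x‖ₑ ^ 2) ≤ ∫⁻ x, ‖f x‖ₑ ^ 2

/-- UZE: decay for large times. -/
def T_UZE : Prop := ∀ n : ℕ, 1 ≤ n → ∀ f : E n → ℝ, Cc f →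
  ∃ C : ℝ, ∀ s : ℝ, 1 ≤ s → ∀ x, |U f s x| ≤ C / Real.sqrt s

/-- FTC: fundamental theorem of calculus in time for a product of three heat extensions. -/
def T_FTC : Prop := ∀ (n : ℕ) (f g h : E n → ℝ), Cc f → Cc g → Cc h → ∀ S : ℝ, 0 ≤ S →
  (∫ x, U f S x * U g S x * U h S x) - (∫ x, f x * g x * h x) =
    ∫ s in (0 : ℝ)..S, ∫ x, (U (lap f) s x * U g s x * U h s x
      + U f s x * U (lap g) s x * U h s x + U f s x * U g s x * U (lap h) s x)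

/-- IBP: integration by parts in space. -/
def T_IBP : Prop := ∀ (n : ℕ) (f g h : E n → ℝ), Cc f → Cc g → Cc h → ∀ (s : ℝ) (i : Fin n),
  (∫ x, (U (pd i (pd i f)) s x * U g s x * U h s x + U f s x * U (pd i (pd i g)) s x * U h s x
      + U f s x * U g s x * U (pd i (pd i h)) s x)) =
    -2 * ∫ x, (U (pd i f) s x * U (pd i g) s x * U h s x + U (pd i f) s x * U g s x * U (pd i h) s x
      + U f s x * U (pd i g) s x * U (pd i h) s x)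

/-- DIV: the third term, integrated by parts with `div G = 0`. -/
def T_DIV : Prop := ∀ (n : ℕ) (b g : E n → ℝ) (G : Fin n → E n → ℝ), Cc b → Cc g → (∀ i, Cc (G i)) →
  (∀ x, ∑ i : Fin n, pd i (G i) x = 0) → ∀ (s : ℝ) (a : Fin n),
  (∑ i : Fin n, ∫ x, U b s x * U (pd a (G i)) s x * U (pd a (pd i g)) s x) =
    - ∑ i : Fin n, ∫ x, U (pd i b) s x * U (pd a (G i)) s x * U (pd a g) s x

/-- HID: the heat identity as an inequality; every term contains a derivative of `b`. -/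
def T_HID : Prop := ∀ n : ℕ, 1 ≤ n → ∀ (b g : E n → ℝ) (G : Fin n → E n → ℝ), Cc b → Cc g →
  (∀ i, Cc (G i)) → (∀ x, ∑ i : Fin n, pd i (G i) x = 0) →
  ENNReal.ofReal |∫ x, b x * ∑ i : Fin n, G i x * pd i g x| ≤
    2 * ∑ a : Fin n, ∑ i : Fin n, ∫⁻ s in Ioi (0 : ℝ), ∫⁻ x,
      (‖U (pd a b) s x‖ₑ * ‖U (pd a (G i)) s x‖ₑ * ‖U (pd i g) s x‖ₑ
        + ‖U (pd a b) s x‖ₑ * ‖U (pd a (pd i g)) s x‖ₑ * ‖U (G i) s x‖ₑ
        + ‖U (pd i b) s x‖ₑ * ‖U (pd a (G i)) s x‖ₑ * ‖U (pd a g) s x‖ₑ)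

/-- ENE: the energy estimate. -/
def T_ENE : Prop := ∀ (n : ℕ) (f : E n → ℝ), Cc f → ∀ i : Fin n,
  (∫⁻ s in Ioi (0 : ℝ), ∫⁻ x, ‖U (pd i f) s x‖ₑ ^ 2) ≤ ∫⁻ x, ‖f x‖ₑ ^ 2

/-- DYA: the Gaussian is bounded by a summable combination of means over dyadic balls. -/
def T_DYA : Prop := ∀ n : ℕ, ∃ c : ℕ → ℝ≥0∞, (∑' j, c j) ≠ ⊤ ∧ ∀ f : E n → ℝ, Continuous f →
  ∀ s : ℝ, 0 < s → ∀ y : E n, ‖U f s y‖ₑ ≤ ∑' j : ℕ, c j *
    ((∫⁻ z in ball y (2 ^ j * Real.sqrt s), ‖f z‖ₑ) / volume (ball y (2 ^ j * Real.sqrt s)))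

/-- MXU: the heat extension is bounded by the maximal function in the parabolic cone. -/
def T_MXU : Prop := ∀ n : ℕ, ∃ C : ℝ≥0∞, C ≠ ⊤ ∧ ∀ f : E n → ℝ, Continuous f → ∀ x : E n,
  NT (fun p : E n × ℝ => ‖U f p.2 p.1‖ₑ) x ≤ C * Pool.Agent.H68.RG.Mx volume (fun z => ‖f z‖ₑ) x

/-- MOA: pointwise bound of the heat extension under the Morrey bound. -/
def T_MOA : Prop := ∀ n : ℕ, 1 ≤ n → ∃ C : ℝ, 0 ≤ C ∧ ∀ (f : E n → ℝ) (M : ℝ), Continuous f → 0 ≤ M →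
  Mor f M → ∀ s : ℝ, 0 < s → ∀ x, |U f s x| ≤ C * M / Real.sqrt s

/-- MOB: the heat extension keeps the Morrey bound. -/
def T_MOB : Prop := ∀ (n : ℕ) (f : E n → ℝ) (M : ℝ), Cc f → 0 ≤ M → Mor f M → ∀ s : ℝ, Mor (U f s) M

/-- MOC: the Carleson estimate. -/
def T_MOC : Prop := ∀ n : ℕ, 1 ≤ n → ∃ C : ℝ, 0 ≤ C ∧ ∀ (f : E n → ℝ) (M : ℝ), Cc f → 0 ≤ M →
  Mor f M → ∀ (x : E n) (r : ℝ), 0 < r →
    (∫⁻ s in Ioo (0 : ℝ) (r ^ 2), ∫⁻ y in ball x r, ‖U f s y‖ₑ ^ 2) ≤ ENNReal.ofReal (C * M ^ 2 * r ^ n)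

/-- CAR: the Carleson embedding. -/
def T_CAR : Prop := ∀ n : ℕ, ∃ C : ℝ≥0∞, C ≠ ⊤ ∧ ∀ (μ : Measure (E n × ℝ)) (A : ℝ≥0∞),
  (∀ (x : E n) (r : ℝ), 0 < r → μ (ball x r ×ˢ Ioo 0 (r ^ 2)) ≤ A * ENNReal.ofReal (r ^ n)) →
  ∀ F : E n × ℝ → ℝ≥0∞, Measurable F → (∫⁻ x, NT F x ^ 2) ≠ ⊤ →
    (∫⁻ p in {p : E n × ℝ | 0 < p.2}, F p ^ 2 ∂μ) ≤ C * A * ∫⁻ x, NT F x ^ 2

/-- CMU: the embedding for the measure `|U f|^2 dx ds`. -/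
def T_CMU : Prop := ∀ n : ℕ, 1 ≤ n → ∃ C : ℝ≥0∞, C ≠ ⊤ ∧ ∀ (f w : E n → ℝ) (M : ℝ), Cc f → Cc w →
  0 ≤ M → Mor f M →
    (∫⁻ s in Ioi (0 : ℝ), ∫⁻ x, (‖U f s x‖ₑ * ‖U w s x‖ₑ) ^ 2) ≤
      C * ENNReal.ofReal (M ^ 2) * ∫⁻ x, ‖w x‖ₑ ^ 2

/-- STA: the basic trilinear estimate in the half space. -/
def T_STA : Prop := ∀ n : ℕ, 1 ≤ n → ∃ C : ℝ≥0∞, C ≠ ⊤ ∧ ∀ (f v w : E n → ℝ) (M : ℝ), Cc f → Cc v →
  Cc w → 0 ≤ M → Mor f M → ∀ a : Fin n,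
    (∫⁻ s in Ioi (0 : ℝ), ∫⁻ x, ‖U f s x‖ₑ * ‖U (pd a v) s x‖ₑ * ‖U w s x‖ₑ) ≤
      C * ENNReal.ofReal M * (∫⁻ x, ‖v x‖ₑ ^ 2) ^ (1 / 2 : ℝ) * (∫⁻ x, ‖w x‖ₑ ^ 2) ^ (1 / 2 : ℝ)

/-- TRS: the trilinear estimate for smooth functions. -/
def T_TRS : Prop := ∀ n : ℕ, 1 ≤ n → ∃ C : ℝ, 0 ≤ C ∧ ∀ (b g : E n → ℝ) (G : Fin n → E n → ℝ) (M : ℝ),
  Cc b → Cc g → (∀ i, Cc (G i)) → (∀ x, ∑ i : Fin n, pd i (G i) x = 0) → 0 ≤ M →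
  (∀ i, Mor (pd i b) M) →
    |∫ x, b x * ∑ i : Fin n, G i x * pd i g x| ≤
      C * M * (∑ i, Real.sqrt (∫ x, G i x ^ 2)) * (∑ i, Real.sqrt (∫ x, pd i g x ^ 2))

/-- The sequence `m` is a mollifier: smooth nonnegative densities of integral one
supported in the balls of radius `1/(k+1)`. -/
structure Moll {n : ℕ} (m : ℕ → E n → ℝ) : Prop where
  cc : ∀ k, Cc (m k)
  nonneg : ∀ k x, 0 ≤ m k x
  one : ∀ k, ∫ x, m k x = 1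
  supp : ∀ k, tsupport (m k) ⊆ closedBall 0 (1 / ((k : ℝ) + 1))

/-- MOL: mollifiers exist and converge almost everywhere. -/
def T_MOL : Prop := ∀ n : ℕ, ∃ m : ℕ → E n → ℝ, Moll m ∧ ∀ f : E n → ℝ, Integrable f →
    ∀ᵐ x, Tendsto (fun k => ∫ z, m k z * f (x - z)) atTop (𝓝 (f x))

/-- MOS: mollification of an integrable function with compact support is in `C_c^∞`. -/
def T_MOS : Prop := ∀ (n : ℕ) (m f : E n → ℝ), Cc m → Integrable f → HasCompactSupport f →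
  Cc (fun x => ∫ z, m z * f (x - z))

/-- ML2: mollification converges in `L^2`. -/
def T_ML2 : Prop := ∀ (n : ℕ) (m : ℕ → E n → ℝ), Moll m → ∀ f : E n → ℝ, MemLp f 2 →
  Tendsto (fun k => eLpNorm (fun x => (∫ z, m k z * f (x - z)) - f x) 2 volume) atTop (𝓝 0)

/-- LIM: passage to the limit in a trilinear integral. -/
def T_LIM : Prop := ∀ (n : ℕ) (bk Gk Dk : ℕ → E n → ℝ) (b G D : E n → ℝ) (K : ℝ),
  (∀ k, AEStronglyMeasurable (bk k)) → (∀ k, ∀ᵐ x, |bk k x| ≤ K) → AEStronglyMeasurable b →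
  (∀ᵐ x, |b x| ≤ K) → (∀ᵐ x, Tendsto (fun k => bk k x) atTop (𝓝 (b x))) →
  (∀ k, MemLp (Gk k) 2) → (∀ k, MemLp (Dk k) 2) → MemLp G 2 → MemLp D 2 →
  Tendsto (fun k => eLpNorm (fun x => Gk k x - G x) 2 volume) atTop (𝓝 0) →
  Tendsto (fun k => eLpNorm (fun x => Dk k x - D x) 2 volume) atTop (𝓝 0) →
  Tendsto (fun k => ∫ x, bk k x * (Gk k x * Dk k x)) atTop (𝓝 (∫ x, b x * (G x * D x))) ∧
  Tendsto (fun k => Real.sqrt (∫ x, Gk k x ^ 2)) atTop (𝓝 (Real.sqrt (∫ x, G x ^ 2)))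

/-- MOW: mollification commutes with weak derivatives. -/
def T_MOW : Prop := ∀ (n : ℕ) (m f : E n → ℝ) (D : Fin n → E n → ℝ), Cc m → Integrable f →
  HasCompactSupport f → (∀ i, Integrable (D i)) → WG f D → ∀ (i : Fin n) (x : E n),
    pd i (fun y => ∫ z, m z * f (y - z)) x = ∫ z, m z * D i (x - z)

/-- MOD: mollification of a weakly divergence free field is divergence free. -/
def T_MOD : Prop := ∀ (n : ℕ) (m : E n → ℝ) (G : Fin n → E n → ℝ), Cc m →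
  (∀ i, Integrable (G i)) → (∀ i, HasCompactSupport (G i)) →
  (∀ φ : E n → ℝ, Cc φ → ∑ i : Fin n, ∫ x, G i x * pd i φ x = 0) → ∀ x : E n,
    ∑ i : Fin n, pd i (fun y => ∫ z, m z * G i (y - z)) x = 0

/-- MOM: mollification keeps the Morrey bound. -/
def T_MOM : Prop := ∀ (n : ℕ) (m f : E n → ℝ) (M : ℝ), Cc m → (∀ x, 0 ≤ m x) → (∫ x, m x = 1) →
  AEStronglyMeasurable f → 0 ≤ M → Mor f M → Mor (fun x => ∫ z, m z * f (x - z)) M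

/-- TRI: the trilinear estimate. -/
def T_TRI : Prop := ∀ n : ℕ, 1 ≤ n → ∃ C : ℝ, 0 ≤ C ∧
  ∀ (b g : E n → ℝ) (B G D : Fin n → E n → ℝ) (M K : ℝ), 0 ≤ M →
    AEStronglyMeasurable b → (∀ᵐ x, |b x| ≤ K) → HasCompactSupport b →
    (∀ i, Integrable (B i)) → WG b B → (∀ i, Mor (B i) M) →
    (∀ i, MemLp (G i) 2) → (∀ i, HasCompactSupport (G i)) →
    (∀ φ : E n → ℝ, Cc φ → ∑ i : Fin n, ∫ x, G i x * pd i φ x = 0) →
    MemLp g 2 → HasCompactSupport g → (∀ i, MemLp (D i) 2) → WG g D →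
    |∫ x, b x * ∑ i : Fin n, G i x * D i x| ≤
      C * M * (∑ i, Real.sqrt (∫ x, G i x ^ 2)) * (∑ i, Real.sqrt (∫ x, D i x ^ 2))

end

end Pool.Agent.H25.TRI
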